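import Pool.Agent.Helper743.GRMain

set_option autoImplicit false

/-! Problem MP_04c775_lc, question Q2 (and the part of Q1 below the halting problem): if `Z` is a
Martin-Löf random set relative to which the halting problem is K-trivial, then no PA degree lies
in the interval `[deg Z, 0')`. -/

namespace Pool.Agent.Results.MP_04c775_lc.NoPABetween

open Pool.Agent.Helper743 Pool.Agent.Helper743.KT Nat.Partrec

/-- `A` is Turing reducible to `B`, for sets given by their characteristic functions. -/
def Below (A B : ℕ → Bool) : Prop :=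
  TuringReducible (fun n => Part.some (A n).toNat : ℕ →. ℕ)
    (fun n => Part.some (B n).toNat : ℕ →. ℕ)

/-- `f` is upper semicomputable relative to the set `B`: the set of the pairs `(n, k)` with
`f n ≤ k` is the domain of a function that is partial computable relative to `B`. -/
def UpperSemi (B : ℕ → Bool) (f : ℕ → ℕ) : Prop :=
  ∃ φ : ℕ →. ℕ, TuringReducible φ (fun n => Part.some (B n).toNat : ℕ →. ℕ) ∧
    ∀ n k : ℕ, (φ (Nat.pair n k)).Dom ↔ f n ≤ k

/-- All finite sums of the numbers `2 ^ (- f n)` are at most `1`. -/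
def KraftSum (f : ℕ → ℕ) : Prop := ∀ s : Finset ℕ, ∑ n ∈ s, (1 / 2 : ℝ) ^ f n ≤ 1

/-- `κ` is (a version of) prefix-free Kolmogorov complexity relative to `B`, on natural numbers:
the least function up to an additive constant among the functions which are upper semicomputable
relative to `B` and satisfy the Kraft inequality. -/
def IsComplexity (B : ℕ → Bool) (κ : ℕ → ℕ) : Prop :=
  UpperSemi B κ ∧ KraftSum κ ∧
    ∀ f : ℕ → ℕ, UpperSemi B f → KraftSum f → ∃ c : ℕ, ∀ n, κ n ≤ f n + c

/-- `X` is K-trivial relative to `B`: the complexity relative to `B` of the string of the first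
`n` bits of `X` exceeds the complexity relative to `B` of `n` by at most a constant. Strings
are coded by natural numbers in the standard way. -/
def KTrivialRel (X B : ℕ → Bool) : Prop :=
  ∃ κ : ℕ → ℕ, IsComplexity B κ ∧
    ∃ c : ℕ, ∀ n : ℕ, κ (Encodable.encode (List.ofFn (fun i : Fin n => X i))) ≤ κ n + c

/-- The halting problem. -/
noncomputable def haltingSet (n : ℕ) : Bool :=
  open Classical in decide (Code.eval (Denumerable.ofNat Code n) n).Dom

/-- `B` is almost complete: the halting problem is K-trivial relative to `B`. -/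
def AlmostComplete (B : ℕ → Bool) : Prop := KTrivialRel haltingSet B

/-- A Martin-Löf test: a uniformly computably enumerable sequence of sets `U n` of binary strings
such that the open set generated by `U n` has measure at most `2 ^ (- n)`. The measure of this
open set is the supremum of the sums of `2 ^ (- length σ)` over the finite prefix-free
subsets of `U n`. -/
def IsMLTest (U : ℕ → Set (List Bool)) : Prop :=
  REPred (fun p : ℕ × List Bool => p.2 ∈ U p.1) ∧
  ∀ n, ∀ S : Finset (List Bool), (∀ σ ∈ S, σ ∈ U n) →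
    (∀ σ ∈ S, ∀ τ ∈ S, σ <+: τ → σ = τ) → ∑ σ ∈ S, (1 / 2 : ℝ) ^ σ.length ≤ (1 / 2) ^ n

/-- `Z` is 1-random (Martin-Löf random): for every Martin-Löf test `U` there is `n` such that no
initial segment of `Z` is in `U n`. -/
def MLRandom (Z : ℕ → Bool) : Prop :=
  ∀ U : ℕ → Set (List Bool), IsMLTest U → ∃ n, ∀ m : ℕ, List.ofFn (fun i : Fin m => Z i) ∉ U n

/-- The degree of `X` is PA: every partial computable function with values in `{0, 1}` has a total
extension with values in `{0, 1}` which is computable from `X`. -/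
def IsPA (X : ℕ → Bool) : Prop :=
  ∀ f : ℕ →. Bool, Partrec f → ∃ g : ℕ → Bool, Below g X ∧ ∀ n b, b ∈ f n → g n = b

/-- Let `Z` be 1-random and almost complete. Every set `X` of PA degree with
`Z ≤_T X ≤_T 0'` computes the halting problem. -/
theorem result (Z X : ℕ → Bool) (hZ : MLRandom Z) (hZa : AlmostComplete Z) (hX : IsPA X)
    (hZX : Below Z X) (hX0 : Below X haltingSet) : Below haltingSet X := by
  classical
  have hUp : ∀ (B : ℕ → Bool) (f : ℕ → ℕ), UpperSemi B f ↔ UpS (fun n => (B n).toNat) f := by
    intro B f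
    constructor
    · rintro ⟨φ, h1, h2⟩
      exact ⟨φ, RecursiveIn.iff_nat.1 h1, h2⟩
    · rintro ⟨φ, h1, h2⟩
      exact ⟨φ, RecursiveIn.iff_nat.2 h1, h2⟩
  have hBel : ∀ A B : ℕ → Bool, Below A B ↔ TR (fun n => (A n).toNat) (fun n => (B n).toNat) :=
    fun A B => TR_iff.symm
  have hK0 : (fun n => (haltingSet n).toNat) = K0 := by
    funext n
    unfold haltingSet K0
    by_cases h : (Code.eval (Denumerable.ofNat Code n) n).Dom <;> simp [h]
  -- K-triviality in terms of the optimal function
  have hK : ∃ c, ∀ n, KG (fun n => (Z n).toNat) (Encodable.encode (AC.kstr n)) ≤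
      KG (fun n => (Z n).toNat) n + c := by
    obtain ⟨κ, ⟨h1, h2, h3⟩, c, hc⟩ := hZa
    obtain ⟨c1, hc1⟩ := KG_opt ((hUp Z κ).1 h1) h2
    obtain ⟨c2, hc2⟩ := h3 (KG (fun n => (Z n).toNat)) ((hUp Z _).2 (KG_UpS _)) (KG_Kraft _)
    refine ⟨c1 + c2 + c, fun n => ?_⟩
    have a1 := hc n
    have a2 := hc1 (Encodable.encode (List.ofFn (fun i : Fin n => haltingSet i)))
    have a3 := hc2 n
    have a4 : AC.kstr n = List.ofFn (fun i : Fin n => haltingSet i) := kstr_eq n
    rw [a4]
    omega
  have h := GR.key (O := {((fun n => (X n).toNat : ℕ → ℕ) : ℕ →. ℕ)}) Z ?_ hK ?_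
    ((hBel Z X).1 hZX) ?_
  · rw [hBel, hK0]
    exact h
  · intro U h1 h2
    exact hZ U ⟨h1, h2⟩
  · intro f hf
    obtain ⟨g, h1, h2⟩ := hX f hf
    exact ⟨g, (hBel g X).1 h1, h2⟩
  · intro h hh
    have h1 := (hBel X haltingSet).1 hX0
    rw [hK0] at h1
    exact TR.trans hh h1

end Pool.Agent.Results.MP_04c775_lc.NoPABetween
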